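import Mathlib

/-!
# CN matrices of pure braid projections: the realizability conjecture fails for every `n ≥ 9`

We formalise `n`-braid projections (strands are graphs of continuous functions of the depth
`t ∈ [0,1]`, meeting only in finitely many double points, at each of which the two strands cross),
their CN matrices, and prove that for every `n ≥ 9` there is a symmetric, even, T0 matrix with
non-negative integer entries that is not the CN matrix of a pure `n`-braid projection.
Strands are only required to be continuous and to switch sides where they meet; every smooth or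
piecewise linear braid projection with transverse double points is of this kind, so the
non-realizability proved here covers those models too.

Idea.  If strands `i < j` of a pure braid projection cross exactly twice, then the set `inv i j`
of depths at which they are in inverted order is a nonempty interval; if they do not cross, it is
empty.  The zero pattern of the `9 × 9` matrix below forces three pairwise disjoint intervals
`inv 0 3`, `inv 1 4`, `inv 2 6` none of which may lie between the other two.
-/

open Set Filter Topology unitInterval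

namespace Pool.Agent.Results.MP_550572_gt.Disproof

/-- An `n`-braid projection.  Strand `i` runs monotonically from the upper bar (`t = 0`) to the
lower bar (`t = 1`); `x i t` is its horizontal coordinate at depth `t`. -/
structure BraidProjection (n : ℕ) where
  /-- horizontal coordinate of strand `i` at depth `t ∈ [0,1]` -/
  x : Fin n → C(I, ℝ)
  /-- the strands are indexed from left to right by their starting positions on the upper bar -/
  top : StrictMono fun i => x i 0
  /-- the strands end at `n` distinct points of the lower bar -/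
  bottom : Function.Injective fun i => x i 1
  /-- two different strands meet in finitely many points -/
  finite : ∀ i j, i ≠ j → {t : I | x i t = x j t}.Finite
  /-- there are only double points: no three different strands pass through one point -/
  double : ∀ i j k, i ≠ j → j ≠ k → i ≠ k → ∀ t : I, ¬ (x i t = x j t ∧ x j t = x k t)
  /-- at every point where two different strands meet they cross, i.e. they switch sides there -/
  cross : ∀ i j, i ≠ j → ∀ t : I, x i t = x j t →
    ((∀ᶠ s in 𝓝[<] t, x i s < x j s) ∧ (∀ᶠ s in 𝓝[>] t, x j s < x i s)) ∨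
    ((∀ᶠ s in 𝓝[<] t, x j s < x i s) ∧ (∀ᶠ s in 𝓝[>] t, x i s < x j s))

/-- A braid projection is pure if strand `i` ends at the `i`-th position at the bottom. -/
def BraidProjection.IsPure {n : ℕ} (B : BraidProjection n) : Prop :=
  StrictMono fun i => B.x i 1

/-- The CN matrix: zero diagonal, and for `i ≠ j` the entry `(i,j)` is the number of crossings
of strand `i` with strand `j`. -/
noncomputable def BraidProjection.cn {n : ℕ} (B : BraidProjection n) : Matrix (Fin n) (Fin n) ℕ :=
  fun i j => if i = j then 0 else {t : I | B.x i t = B.x j t}.ncard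

/-- A matrix is even if all its entries are even. -/
def IsEvenMatrix {n : ℕ} (M : Matrix (Fin n) (Fin n) ℕ) : Prop := ∀ i j, Even (M i j)

/-- A matrix is T0 if it has zero diagonal and, whenever `i < j < k` and both `M i j` and `M j k`
vanish, also `M i k = 0`. -/
def IsT0 {n : ℕ} (M : Matrix (Fin n) (Fin n) ℕ) : Prop :=
  (∀ i, M i i = 0) ∧ ∀ i j k, i < j → j < k → M i j = 0 → M j k = 0 → M i k = 0

/-! ### Pairs of strands of a pure braid projection -/

lemma lt_of_cn_eq_zero {n : ℕ} (B : BraidProjection n) {i j : Fin n} (hij : i < j)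
    (h : B.cn i j = 0) (t : I) : B.x i t < B.x j t := by
  by_contra hcon
  rw [not_lt] at hcon
  have hne : i ≠ j := ne_of_lt hij
  obtain ⟨s, hs⟩ := intermediate_value_univ₂ (B.x i).continuous (B.x j).continuous
    (le_of_lt (B.top hij)) hcon
  have h' : {t : I | B.x i t = B.x j t}.ncard = 0 := by
    simpa [BraidProjection.cn, hne] using h
  rw [Set.ncard_eq_zero (B.finite i j hne)] at h'
  have : s ∈ {t : I | B.x i t = B.x j t} := hs
  rw [h'] at this
  exact this

/-- The set of depths at which the strands `i < j` are in inverted order. -/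
def inv {n : ℕ} (B : BraidProjection n) (i j : Fin n) : Set I := {t | B.x j t < B.x i t}

lemma inv_nonempty {n : ℕ} (B : BraidProjection n) {i j : Fin n} (hij : i < j)
    (h : B.cn i j = 2) : (inv B i j).Nonempty := by
  have hne : i ≠ j := ne_of_lt hij
  have h' : {t : I | B.x i t = B.x j t}.ncard = 2 := by
    simpa [BraidProjection.cn, hne] using h
  have hnon : {t : I | B.x i t = B.x j t}.Nonempty := by
    rw [← Set.ncard_pos (B.finite i j hne), h']
    norm_num
  obtain ⟨t, ht⟩ := hnon
  have ht' : B.x i t = B.x j t := ht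
  have ht0 : t ≠ 0 := by
    rintro rfl
    exact absurd ht' (ne_of_lt (B.top hij))
  have ht1 : t ≠ 1 := by
    rintro rfl
    exact hne (B.bottom ht')
  have h0 : (0 : I) < t := lt_of_le_of_ne (unitInterval.nonneg t) (Ne.symm ht0)
  have h1 : t < (1 : I) := lt_of_le_of_ne (unitInterval.le_one t) ht1
  have : (𝓝[<] t).NeBot := nhdsLT_neBot_of_exists_lt ⟨0, h0⟩
  have : (𝓝[>] t).NeBot := nhdsGT_neBot_of_exists_gt ⟨1, h1⟩
  rcases B.cross i j hne t ht' with ⟨_, h2⟩ | ⟨h2, _⟩
  · obtain ⟨s, hs⟩ := h2.exists
    exact ⟨s, hs⟩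
  · obtain ⟨s, hs⟩ := h2.exists
    exact ⟨s, hs⟩

lemma inv_ordConnected {n : ℕ} (B : BraidProjection n) (hB : B.IsPure) {i j : Fin n}
    (hij : i < j) (h : B.cn i j = 2) : (inv B i j).OrdConnected := by
  have hne : i ≠ j := ne_of_lt hij
  have h' : {t : I | B.x i t = B.x j t}.ncard = 2 := by
    simpa [BraidProjection.cn, hne] using h
  refine ⟨?_⟩
  intro s hs r hr t ht
  have hs' : B.x j s < B.x i s := hs
  have hr' : B.x j r < B.x i r := hr
  by_contra hcon
  have hcon' : B.x i t ≤ B.x j t := not_lt.mp hcon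
  have ci := (B.x i).continuous
  have cj := (B.x j).continuous
  -- a crossing before `s`
  obtain ⟨z1, hz1, e1⟩ := isPreconnected_Icc.intermediate_value₂
    (left_mem_Icc.mpr (unitInterval.nonneg' (t := s))) (right_mem_Icc.mpr (unitInterval.nonneg' (t := s)))
    ci.continuousOn cj.continuousOn (le_of_lt (B.top hij)) (le_of_lt hs')
  -- a crossing between `s` and `t`
  obtain ⟨z2, hz2, e2⟩ := isPreconnected_Icc.intermediate_value₂
    (right_mem_Icc.mpr ht.1) (left_mem_Icc.mpr ht.1)
    ci.continuousOn cj.continuousOn hcon' (le_of_lt hs')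
  -- a crossing after `r`
  obtain ⟨z3, hz3, e3⟩ := isPreconnected_Icc.intermediate_value₂
    (right_mem_Icc.mpr (unitInterval.le_one' (t := r))) (left_mem_Icc.mpr (unitInterval.le_one' (t := r)))
    ci.continuousOn cj.continuousOn (le_of_lt (hB hij)) (le_of_lt hr')
  have l1 : z1 < s := lt_of_le_of_ne hz1.2 (by rintro rfl; exact absurd e1 (ne_of_gt hs'))
  have l2 : s < z2 := lt_of_le_of_ne hz2.1 (by rintro rfl; exact absurd e2 (ne_of_gt hs'))
  have l3 : z2 < r := lt_of_le_of_ne (hz2.2.trans ht.2)
    (by rintro rfl; exact absurd e2 (ne_of_gt hr'))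
  have l4 : r < z3 := lt_of_le_of_ne hz3.1 (by rintro rfl; exact absurd e3 (ne_of_gt hr'))
  have hsub : ({z1, z2, z3} : Set I) ⊆ {t : I | B.x i t = B.x j t} := by
    intro z hz
    rcases hz with rfl | rfl | rfl
    · exact e1
    · exact e2
    · exact e3
  have hcard : ({z1, z2, z3} : Set I).ncard = 3 := by
    rw [Set.ncard_eq_toFinset_card']
    have n12 : z1 ≠ z2 := ne_of_lt (l1.trans l2)
    have n13 : z1 ≠ z3 := ne_of_lt (l1.trans (l2.trans (l3.trans l4)))
    have n23 : z2 ≠ z3 := ne_of_lt (l3.trans l4)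
    simp [n12, n13, n23]
  have := Set.ncard_le_ncard hsub (B.finite i j hne)
  omega

/-- If `c` is outside an order-connected set containing `a` and `b`, then `c` lies on the same
side of `a` and of `b`. -/
lemma side {S : Set I} (hS : S.OrdConnected) {a b c : I} (ha : a ∈ S) (hb : b ∈ S)
    (hc : c ∉ S) : c < a ↔ c < b := by
  constructor
  · intro h
    by_contra h'
    exact hc (hS.out hb ha ⟨not_lt.mp h', le_of_lt h⟩)
  · intro h
    by_contra h'
    exact hc (hS.out ha hb ⟨not_lt.mp h', le_of_lt h⟩)

/-! ### The matrix -/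

/-- The `9 × 9` block of the counterexample. -/
def M9 : Matrix (Fin 9) (Fin 9) ℕ :=
  !![0, 2, 2, 2, 0, 2, 0, 2, 0;
     2, 0, 2, 0, 2, 0, 0, 2, 0;
     2, 2, 0, 0, 0, 2, 2, 0, 0;
     2, 0, 0, 0, 2, 2, 2, 2, 2;
     0, 2, 0, 2, 0, 2, 2, 2, 0;
     2, 0, 2, 2, 2, 0, 0, 2, 0;
     0, 0, 2, 2, 2, 0, 0, 2, 0;
     2, 2, 0, 2, 2, 2, 2, 0, 2;
     0, 0, 0, 2, 0, 0, 0, 2, 0]

/-- The counterexample for `n` strands: the block `M9` in the upper left corner, zeros
elsewhere. -/
def Mn (n : ℕ) : Matrix (Fin n) (Fin n) ℕ := fun i j =>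
  if h : (i : ℕ) < 9 ∧ (j : ℕ) < 9 then M9 ⟨i, h.1⟩ ⟨j, h.2⟩ else 0

lemma M9_symm : ∀ i j, M9 i j = M9 j i := by decide

lemma M9_even : ∀ i j, Even (M9 i j) := by decide

lemma M9_diag : ∀ i, M9 i i = 0 := by decide

lemma M9_T0 : ∀ i j k : Fin 9, i < j → j < k → M9 i j = 0 → M9 j k = 0 → M9 i k = 0 := by
  decide

lemma Mn_symm (n : ℕ) : (Mn n).IsSymm := by
  ext i j
  simp only [Matrix.transpose_apply, Mn]
  by_cases hi : (i : ℕ) < 9 <;> by_cases hj : (j : ℕ) < 9 <;> simp [hi, hj]
  exact M9_symm _ _

lemma Mn_even (n : ℕ) : IsEvenMatrix (Mn n) := by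
  intro i j
  simp only [Mn]
  split_ifs with h
  · exact M9_even _ _
  · exact Even.zero

lemma Mn_T0 (n : ℕ) : IsT0 (Mn n) := by
  refine ⟨?_, ?_⟩
  · intro i
    simp only [Mn]
    split_ifs with h
    · exact M9_diag _
    · rfl
  · intro i j k hij hjk h1 h2
    simp only [Mn] at h1 h2 ⊢
    split_ifs with h
    · have hj : (j : ℕ) < 9 := lt_trans hjk h.2
      rw [dif_pos ⟨h.1, hj⟩] at h1
      rw [dif_pos ⟨hj, h.2⟩] at h2
      exact M9_T0 ⟨i, h.1⟩ ⟨j, hj⟩ ⟨k, h.2⟩ hij hjk h1 h2
    · rfl

/-- The core of the argument. -/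
lemma not_realizable {n : ℕ} (hn : 9 ≤ n) (B : BraidProjection n) (hB : B.IsPure) :
    B.cn ≠ Mn n := by
  intro hM
  -- the first nine strands
  let f : Fin 9 → Fin n := Fin.castLE hn
  have hf : ∀ {i j : Fin 9}, i < j → f i < f j := fun h => h
  have hval : ∀ i j : Fin 9, B.cn (f i) (f j) = M9 i j := by
    intro i j
    rw [hM]
    simp [Mn, f]
  have lt0 : ∀ {i j : Fin 9}, i < j → M9 i j = 0 → ∀ t, B.x (f i) t < B.x (f j) t :=
    fun h h0 t => lt_of_cn_eq_zero B (hf h) (by rw [hval]; exact h0) t
  have nonem : ∀ {i j : Fin 9}, i < j → M9 i j = 2 → (inv B (f i) (f j)).Nonempty :=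
    fun h h2 => inv_nonempty B (hf h) (by rw [hval]; exact h2)
  have ordc : ∀ {i j : Fin 9}, i < j → M9 i j = 2 → (inv B (f i) (f j)).OrdConnected :=
    fun h h2 => inv_ordConnected B hB (hf h) (by rw [hval]; exact h2)
  -- the pairs that never cross
  have h04 := lt0 (i := 0) (j := 4) (by decide) (by decide)
  have h06 := lt0 (i := 0) (j := 6) (by decide) (by decide)
  have h13 := lt0 (i := 1) (j := 3) (by decide) (by decide)
  have h15 := lt0 (i := 1) (j := 5) (by decide) (by decide)
  have h16 := lt0 (i := 1) (j := 6) (by decide) (by decide)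
  have h23 := lt0 (i := 2) (j := 3) (by decide) (by decide)
  have h24 := lt0 (i := 2) (j := 4) (by decide) (by decide)
  have h27 := lt0 (i := 2) (j := 7) (by decide) (by decide)
  have h56 := lt0 (i := 5) (j := 6) (by decide) (by decide)
  have h48 := lt0 (i := 4) (j := 8) (by decide) (by decide)
  have h68 := lt0 (i := 6) (j := 8) (by decide) (by decide)
  -- the depths at which certain pairs are inverted
  obtain ⟨a, ha⟩ := nonem (i := 0) (j := 3) (by decide) (by decide)
  obtain ⟨b, hb⟩ := nonem (i := 1) (j := 4) (by decide) (by decide)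
  obtain ⟨c, hc⟩ := nonem (i := 2) (j := 6) (by decide) (by decide)
  obtain ⟨p, hp⟩ := nonem (i := 3) (j := 8) (by decide) (by decide)
  obtain ⟨q, hq⟩ := nonem (i := 0) (j := 5) (by decide) (by decide)
  obtain ⟨r, hr⟩ := nonem (i := 0) (j := 7) (by decide) (by decide)
  obtain ⟨s, hs⟩ := nonem (i := 1) (j := 7) (by decide) (by decide)
  simp only [inv, mem_ofPred_eq] at ha hb hc hp hq hr hs
  -- intervals
  have o34 := ordc (i := 3) (j := 4) (by decide) (by decide)
  have o36 := ordc (i := 3) (j := 6) (by decide) (by decide)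
  have o01 := ordc (i := 0) (j := 1) (by decide) (by decide)
  have o45 := ordc (i := 4) (j := 5) (by decide) (by decide)
  have o02 := ordc (i := 0) (j := 2) (by decide) (by decide)
  have o67 := ordc (i := 6) (j := 7) (by decide) (by decide)
  have o12 := ordc (i := 1) (j := 2) (by decide) (by decide)
  -- `a` is not between `b` and `c`
  have A1 : a < b ↔ a < p := side o34 (show B.x (f 4) b < B.x (f 3) b from hb.trans (h13 b))
    (show B.x (f 4) p < B.x (f 3) p from (h48 p).trans hp)
    (show ¬ B.x (f 4) a < B.x (f 3) a from not_lt.mpr (le_of_lt (ha.trans (h04 a))))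
  have A2 : a < c ↔ a < p := side o36 (show B.x (f 6) c < B.x (f 3) c from hc.trans (h23 c))
    (show B.x (f 6) p < B.x (f 3) p from (h68 p).trans hp)
    (show ¬ B.x (f 6) a < B.x (f 3) a from not_lt.mpr (le_of_lt (ha.trans (h06 a))))
  -- `b` is not between `a` and `c`
  have B1 : b < a ↔ b < q := side o01 (show B.x (f 1) a < B.x (f 0) a from (h13 a).trans ha)
    (show B.x (f 1) q < B.x (f 0) q from (h15 q).trans hq)
    (show ¬ B.x (f 1) b < B.x (f 0) b from not_lt.mpr (le_of_lt ((h04 b).trans hb)))
  have B2 : b < c ↔ b < q := side o45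
    (show B.x (f 5) c < B.x (f 4) c from ((h56 c).trans hc).trans (h24 c))
    (show B.x (f 5) q < B.x (f 4) q from hq.trans (h04 q))
    (show ¬ B.x (f 5) b < B.x (f 4) b from not_lt.mpr (le_of_lt (hb.trans (h15 b))))
  -- `c` is not between `a` and `b`
  have C1 : c < a ↔ c < r := side o02 (show B.x (f 2) a < B.x (f 0) a from (h23 a).trans ha)
    (show B.x (f 2) r < B.x (f 0) r from (h27 r).trans hr)
    (show ¬ B.x (f 2) c < B.x (f 0) c from not_lt.mpr (le_of_lt ((h06 c).trans hc)))
  have C2 : c < r ↔ c < s := side o67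
    (show B.x (f 7) r < B.x (f 6) r from hr.trans (h06 r))
    (show B.x (f 7) s < B.x (f 6) s from hs.trans (h16 s))
    (show ¬ B.x (f 7) c < B.x (f 6) c from not_lt.mpr (le_of_lt (hc.trans (h27 c))))
  have C3 : c < s ↔ c < b := side o12
    (show B.x (f 2) s < B.x (f 1) s from (h27 s).trans hs)
    (show B.x (f 2) b < B.x (f 1) b from (h24 b).trans hb)
    (show ¬ B.x (f 2) c < B.x (f 1) c from not_lt.mpr (le_of_lt ((h16 c).trans hc)))
  have A : a < b ↔ a < c := A1.trans A2.symm
  have Bb : b < a ↔ b < c := B1.trans B2.symm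
  have C : c < a ↔ c < b := C1.trans (C2.trans C3)
  -- the three depths are different
  have ab : a ≠ b := by
    rintro rfl
    exact absurd (hb.trans (h13 a)) (not_lt.mpr (le_of_lt (ha.trans (h04 a))))
  have ac : a ≠ c := by
    rintro rfl
    exact absurd (hc.trans (h23 a)) (not_lt.mpr (le_of_lt (ha.trans (h06 a))))
  have bc : b ≠ c := by
    rintro rfl
    exact absurd (((h56 b).trans hc).trans (h24 b)) (not_lt.mpr (le_of_lt (hb.trans (h15 b))))
  rcases lt_or_gt_of_ne ab with h | h
  · have h1 : a < c := A.mp h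
    have h2 : ¬ b < c := fun h' => lt_asymm h (Bb.mpr h')
    have h3 : c < b := lt_of_le_of_ne (not_lt.mp h2) bc.symm
    exact lt_asymm h1 (C.mpr h3)
  · have h1 : b < c := Bb.mp h
    have h2 : ¬ a < c := fun h' => lt_asymm h (A.mpr h')
    have h3 : c < a := lt_of_le_of_ne (not_lt.mp h2) ac.symm
    exact lt_asymm h1 (C.mp h3)

/-- For every `n ≥ 9` there is a symmetric, even, T0 matrix with non-negative integer entries that
is not the CN matrix of any pure `n`-braid projection. -/
theorem result : ∀ n : ℕ, 9 ≤ n → ∃ M : Matrix (Fin n) (Fin n) ℕ,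
    M.IsSymm ∧ IsEvenMatrix M ∧ IsT0 M ∧ ¬ ∃ B : BraidProjection n, B.IsPure ∧ B.cn = M :=
  fun n hn => ⟨Mn n, Mn_symm n, Mn_even n, Mn_T0 n,
    fun ⟨B, hB, hM⟩ => not_realizable hn B hB hM⟩

end Pool.Agent.Results.MP_550572_gt.Disproof
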